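import Mathlib

/-!
Abstract step: from a family of cube points whose affine hull meets the cube only in these
points, and whose two colour classes have intersecting convex hulls but no short trade, we build a
monotone Boolean function that is not a threshold function and has no short trade.
-/

namespace Pool.Agent.MP_8a557e_co.H71

open Finset

/-- real indicator of a Boolean value -/
def ind (b : Bool) : ℝ := if b then 1 else 0

@[simp] lemma ind_true : ind true = 1 := rfl
@[simp] lemma ind_false : ind false = 0 := rfl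

lemma ind_mono {a b : Bool} (h : a ≤ b) : ind a ≤ ind b := by
  cases a <;> cases b
  · simp
  · simp
  · exact absurd h (by decide)
  · simp

lemma ind_inj {a b : Bool} (h : ind a = ind b) : a = b := by
  cases a <;> cases b <;> simp_all [ind]

lemma ind_not (a : Bool) : ind (!a) = 1 - ind a := by
  cases a <;> simp

/-- the good functions on a finite coordinate type -/
def Good {ι : Type} [Fintype ι] (N : ℕ) (f : (ι → Bool) → Bool) : Prop :=
  Monotone f ∧
  (¬ ∃ (w : ι → ℝ) (q : ℝ), ∀ x, f x = true ↔ q ≤ ∑ i, w i * ind (x i)) ∧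
  ∀ j : ℕ, 1 ≤ j → j ≤ N → ∀ x y : Fin j → ι → Bool, (∀ t, f (x t) = true) →
    (∀ t, f (y t) = false) → ¬ ∀ i, ∑ t, ind (x t i) = ∑ t, ind (y t i)

lemma all_eq_of_sum_eq {j : ℕ} (a b : Fin j → ℝ) (q : ℝ) (ha : ∀ t, q ≤ a t) (hb : ∀ t, b t ≤ q)
    (h : ∑ t, a t = ∑ t, b t) : (∀ t, a t = q) ∧ (∀ t, b t = q) := by
  have h1 : ∑ t, (a t - b t) = 0 := by rw [Finset.sum_sub_distrib, h, sub_self]
  have h2 : ∀ t ∈ (univ : Finset (Fin j)), 0 ≤ a t - b t := fun t _ => by
    linarith [ha t, hb t]
  have h3 := (Finset.sum_eq_zero_iff_of_nonneg h2).1 h1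
  constructor
  · intro t
    have := h3 t (mem_univ t)
    linarith [ha t, hb t]
  · intro t
    have := h3 t (mem_univ t)
    linarith [ha t, hb t]

theorem abstract_good {ι C : Type} [Fintype ι] [Fintype C]
    (h : C → ι → Bool) (side : C → Bool) (N : ℕ) (hN : 1 ≤ N) (q : ℝ) (hq : q ≠ 0)
    (hsum : ∀ c, ∑ i, ind (h c i) = q)
    (hull : ∀ (μ : C → ℝ) (x : ι → Bool), ∑ c, μ c = 1 →
      (∀ i, ind (x i) = ∑ c, μ c * ind (h c i)) → ∃ c, x = h c)
    (long : ∀ (j : ℕ) (a b : Fin j → C), 1 ≤ j → (∀ t, side (a t) = true) →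
      (∀ t, side (b t) = false) →
      (∀ i, ∑ t, ind (h (a t) i) = ∑ t, ind (h (b t) i)) → N < j)
    (ν : C → ℝ) (hν1 : ∀ c, side c = true → 0 ≤ ν c) (hν2 : ∀ c, side c = false → ν c ≤ 0)
    (hν3 : ∃ c, side c = false ∧ ν c < 0) (hν4 : ∑ c, ν c = 0)
    (hν5 : ∀ i, ∑ c, ν c * ind (h c i) = 0) :
    ∃ f : (ι → Bool) → Bool, Good N f := by
  classical
  -- the span of the points
  let v : (ι → Bool) → (ι → ℝ) := fun x i => ind (x i)
  let W : Submodule ℝ (ι → ℝ) := Submodule.span ℝ (Set.range fun c => v (h c))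
  obtain ⟨g, hg⟩ := Module.exists_dual_forall_apply_ne_zero (K := ℝ)
    (fun x : {x : ι → Bool // v x ∉ W} => W.mkQ (v x.1)) (fun x => by
      simpa [Submodule.Quotient.mk_eq_zero] using x.2)
  let ψ : (ι → ℝ) →ₗ[ℝ] ℝ := g.comp W.mkQ
  have hψ0 : ∀ c, ψ (v (h c)) = 0 := by
    intro c
    have : v (h c) ∈ W := Submodule.subset_span ⟨c, rfl⟩
    have h0 : W.mkQ (v (h c)) = 0 := by simpa [Submodule.Quotient.mk_eq_zero] using this
    simp only [ψ, LinearMap.comp_apply, h0, map_zero]
  have hψ1 : ∀ x, ψ (v x) = 0 → v x ∈ W := by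
    intro x hx
    by_contra hcon
    exact hg ⟨x, hcon⟩ hx
  let u : (ι → Bool) → ℝ := fun x => ∑ i, ind (x i)
  have hpt : ∀ x, u x = q → ψ (v x) = 0 → ∃ c, x = h c := by
    intro x hx1 hx2
    have hW := hψ1 x hx2
    obtain ⟨μ, hμ⟩ := (Submodule.mem_span_range_iff_exists_fun ℝ).1 hW
    have hμ' : ∀ i, ind (x i) = ∑ c, μ c * ind (h c i) := by
      intro i
      have := congrFun hμ i
      simp only [Finset.sum_apply, Pi.smul_apply, smul_eq_mul, v] at this
      exact this.symm
    refine hull μ x ?_ hμ'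
    have h1 : q = (∑ c, μ c) * q := by
      calc q = u x := hx1.symm
        _ = ∑ i, ∑ c, μ c * ind (h c i) := Finset.sum_congr rfl fun i _ => hμ' i
        _ = ∑ c, ∑ i, μ c * ind (h c i) := Finset.sum_comm
        _ = ∑ c, μ c * q := Finset.sum_congr rfl fun c _ => by rw [← Finset.mul_sum, hsum c]
        _ = (∑ c, μ c) * q := by rw [Finset.sum_mul]
    have h2 : (∑ c, μ c - 1) * q = 0 := by linarith
    rcases mul_eq_zero.1 h2 with h3 | h3
    · linarith
    · exact absurd h3 hq
  let P : (ι → Bool) → Prop := fun x =>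
    q < u x ∨ (u x = q ∧ (0 < ψ (v x) ∨ (ψ (v x) = 0 ∧ ∃ c, side c = true ∧ x = h c)))
  have hT : ∀ c, side c = true → P (h c) := fun c hc =>
    Or.inr ⟨hsum c, Or.inr ⟨hψ0 c, c, hc, rfl⟩⟩
  have hF : ∀ c, side c = false → ¬ P (h c) := by
    intro c hc hP
    rcases hP with h1 | ⟨_, h1 | ⟨_, d, hd, hcd⟩⟩
    · have : u (h c) = q := hsum c
      linarith
    · rw [hψ0 c] at h1; exact lt_irrefl _ h1
    · have := long 1 (fun _ => d) (fun _ => c) le_rfl (fun _ => hd) (fun _ => hc)
        (fun i => by rw [hcd])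
      omega
  refine ⟨fun x => decide (P x), ?_, ?_, ?_⟩
  · intro x y hxy
    by_cases hxy' : x = y
    · rw [hxy']
    have hlt : u x < u y := by
      obtain ⟨i, hi⟩ := Function.ne_iff.1 hxy'
      refine Finset.sum_lt_sum (fun i _ => ind_mono (hxy i)) ⟨i, mem_univ i, ?_⟩
      exact lt_of_le_of_ne (ind_mono (hxy i)) (fun hh => hi (ind_inj hh))
    by_cases hx : P x
    · have h1 : q ≤ u x := by
        rcases hx with h1 | ⟨h1, _⟩
        · exact h1.le
        · exact h1.ge
      have hy : P y := Or.inl (lt_of_le_of_lt h1 hlt)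
      simp [hy]
    · simp [hx]
  · rintro ⟨w, θ, hw⟩
    have hw' : ∀ x, P x ↔ θ ≤ ∑ i, w i * ind (x i) := fun x => by
      rw [← hw x]; simp
    have key : ∀ c, 0 ≤ ν c * (∑ i, w i * ind (h c i) - θ) := by
      intro c
      cases hc : side c
      · have h1 := hF c hc
        rw [hw'] at h1
        exact mul_nonneg_of_nonpos_of_nonpos (hν2 c hc) (by linarith [not_le.1 h1])
      · have h1 := hT c hc
        rw [hw'] at h1
        exact mul_nonneg (hν1 c hc) (by linarith)
    obtain ⟨c0, hc0, hc0'⟩ := hν3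
    have key2 : 0 < ν c0 * (∑ i, w i * ind (h c0 i) - θ) := by
      have h1 := hF c0 hc0
      rw [hw'] at h1
      exact mul_pos_of_neg_of_neg hc0' (by linarith [not_le.1 h1])
    have hpos : 0 < ∑ c, ν c * (∑ i, w i * ind (h c i) - θ) :=
      Finset.sum_pos' (fun c _ => key c) ⟨c0, mem_univ _, key2⟩
    have hzero : ∑ c, ν c * (∑ i, w i * ind (h c i) - θ) = 0 := by
      calc ∑ c, ν c * (∑ i, w i * ind (h c i) - θ)
          = ∑ c, (∑ i, w i * (ν c * ind (h c i)) - ν c * θ) := by
            refine Finset.sum_congr rfl fun c _ => ?_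
            rw [mul_sub, Finset.mul_sum]
            congr 1
            exact Finset.sum_congr rfl fun i _ => by ring
        _ = ∑ c, ∑ i, w i * (ν c * ind (h c i)) - (∑ c, ν c) * θ := by
            rw [Finset.sum_sub_distrib, Finset.sum_mul]
        _ = ∑ i, w i * ∑ c, ν c * ind (h c i) - (∑ c, ν c) * θ := by
            rw [Finset.sum_comm]
            congr 1
            exact Finset.sum_congr rfl fun i _ => by rw [Finset.mul_sum]
        _ = 0 := by simp [hν4, hν5]
    linarith
  · intro j hj hjN x y hx hy hxy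
    have hx' : ∀ t, P (x t) := fun t => by simpa using hx t
    have hy' : ∀ t, ¬ P (y t) := fun t => by simpa using hy t
    have hu : ∑ t, u (x t) = ∑ t, u (y t) := by
      simp only [u]
      rw [Finset.sum_comm, Finset.sum_comm (f := fun t i => ind (y t i))]
      exact Finset.sum_congr rfl fun i _ => hxy i
    obtain ⟨hux, huy⟩ := all_eq_of_sum_eq (fun t => u (x t)) (fun t => u (y t)) q
      (fun t => by
        rcases hx' t with h1 | ⟨h1, _⟩
        · exact h1.le
        · exact h1.ge)
      (fun t => by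
        by_contra hcon
        exact hy' t (Or.inl (not_le.1 hcon))) hu
    have hv : ∑ t, v (x t) = ∑ t, v (y t) := by
      funext i
      simp only [Finset.sum_apply, v]
      exact hxy i
    have hψ : ∑ t, ψ (v (x t)) = ∑ t, ψ (v (y t)) := by
      rw [← map_sum, ← map_sum, hv]
    obtain ⟨hψx, hψy⟩ := all_eq_of_sum_eq (fun t => ψ (v (x t))) (fun t => ψ (v (y t))) 0
      (fun t => by
        rcases hx' t with h1 | ⟨_, h1 | ⟨h1, _⟩⟩
        · have := hux t
          linarith
        · exact h1.le
        · exact h1.ge)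
      (fun t => by
        by_contra hcon
        exact hy' t (Or.inr ⟨huy t, Or.inl (not_le.1 hcon)⟩)) hψ
    have ha : ∀ t, ∃ c, side c = true ∧ x t = h c := by
      intro t
      rcases hx' t with h1 | ⟨_, h1 | ⟨_, h1⟩⟩
      · have := hux t
        linarith
      · have := hψx t
        linarith
      · exact h1
    have hb : ∀ t, ∃ c, side c = false ∧ y t = h c := by
      intro t
      obtain ⟨c, hc⟩ := hpt (y t) (huy t) (hψy t)
      refine ⟨c, ?_, hc⟩
      by_contra hcon
      exact hy' t (hc ▸ hT c (by simpa using hcon))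
    choose a ha1 ha2 using ha
    choose b hb1 hb2 using hb
    have := long j a b hj ha1 hb1 (fun i => by
      have := hxy i
      simp only [ha2, hb2] at this
      exact this)
    omega

/-- padding with dummy coordinates -/
theorem good_of_embedding {ι κ : Type} [Fintype ι] [Fintype κ] (e : ι ↪ κ) (N : ℕ)
    (f : (ι → Bool) → Bool) (hf : Good N f) : Good N (fun x : κ → Bool => f (x ∘ e)) := by
  classical
  obtain ⟨h1, h2, h3⟩ := hf
  refine ⟨fun x y hxy => h1 (fun i => hxy (e i)), ?_, ?_⟩
  · rintro ⟨w, θ, hw⟩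
    refine h2 ⟨fun i => w (e i), θ, fun x => ?_⟩
    have hx : (Function.extend e x (fun _ => false)) ∘ e = x := by
      funext i
      simp [e.injective.extend_apply]
    have := hw (Function.extend e x (fun _ => false))
    simp only [hx] at this
    rw [this]
    have hs : ∑ i, w i * ind (Function.extend e x (fun _ => false) i) =
        ∑ i, w (e i) * ind (x i) := by
      rw [← Finset.sum_subset (Finset.subset_univ (univ.map e))]
      · rw [Finset.sum_map]
        refine Finset.sum_congr rfl fun i _ => ?_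
        rw [e.injective.extend_apply]
      · intro i _ hi
        have : ¬ ∃ a, e a = i := by simpa using hi
        rw [Function.extend_apply' _ _ _ this]
        simp
    rw [hs]
  · intro j hj hjN x y hx hy hxy
    exact h3 j hj hjN (fun t => x t ∘ e) (fun t => y t ∘ e) hx hy (fun i => hxy (e i))

end Pool.Agent.MP_8a557e_co.H71
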