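import Mathlib
import Pool.Agent.MP_8a557e_co.H71.Abstract

/-!
The concrete configuration.  Points are indexed by (level, side, copy); the coordinates are
zero-sum subsets (and their complements) for the Fibonacci weights.
-/

namespace Pool.Agent.MP_8a557e_co.H71

open Finset

abbrev Pt (k : ℕ) := Fin (k + 2) × Bool × Bool
abbrev Row (k : ℕ) := (Fin (k + 2) × Bool × Bool) ⊕ (Fin k × Bool × Bool)

def l0 {k : ℕ} (i : Fin k) : Fin (k + 2) := ⟨i, by omega⟩
def l1 {k : ℕ} (i : Fin k) : Fin (k + 2) := ⟨i + 1, by omega⟩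
def l2 {k : ℕ} (i : Fin k) : Fin (k + 2) := ⟨i + 2, by omega⟩

def row {k : ℕ} : Row k → Finset (Pt k)
  | .inl (i, e1, e2) => {(i, true, e1), (i, false, e2)}
  | .inr (i, s, e) => {(l0 i, s, e), (l1 i, s, e), (l2 i, !s, e)}

lemma sum_row_inl {k : ℕ} (μ : Pt k → ℝ) (i : Fin (k + 2)) (e1 e2 : Bool) :
    ∑ c ∈ row (.inl (i, e1, e2)), μ c = μ (i, true, e1) + μ (i, false, e2) := by
  simp only [row]
  rw [Finset.sum_pair (by simp)]

lemma sum_row_inr {k : ℕ} (μ : Pt k → ℝ) (i : Fin k) (s e : Bool) :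
    ∑ c ∈ row (.inr (i, s, e)), μ c = μ (l0 i, s, e) + μ (l1 i, s, e) + μ (l2 i, !s, e) := by
  simp only [row]
  rw [Finset.sum_insert (by simp [l0, l1, l2]), Finset.sum_pair (by simp [l1, l2]), add_assoc]

def pt {k : ℕ} (c : Pt k) (p : Row k × Bool) : Bool :=
  if p.2 then decide (c ∈ row p.1) else !decide (c ∈ row p.1)

lemma sum_ind_mem {k : ℕ} (μ : Pt k → ℝ) (s : Finset (Pt k)) :
    ∑ c, μ c * ind (decide (c ∈ s)) = ∑ c ∈ s, μ c := by
  rw [← Finset.sum_subset (Finset.subset_univ s)]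
  · exact Finset.sum_congr rfl fun c hc => by simp [hc]
  · intro c _ hc
    simp [hc]

lemma sum_pt_true {k : ℕ} (μ : Pt k → ℝ) (r : Row k) :
    ∑ c, μ c * ind (pt c (r, true)) = ∑ c ∈ row r, μ c := by
  simp only [pt, if_true]
  exact sum_ind_mem μ _

lemma sum_pt_false {k : ℕ} (μ : Pt k → ℝ) (r : Row k) :
    ∑ c, μ c * ind (pt c (r, false)) = ∑ c, μ c - ∑ c ∈ row r, μ c := by
  simp only [pt, Bool.false_eq_true, if_false, ind_not, mul_sub, mul_one, Finset.sum_sub_distrib]
  rw [sum_ind_mem]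

lemma pt_sum {k : ℕ} (c : Pt k) : ∑ p, ind (pt c p) = (Fintype.card (Row k) : ℝ) := by
  rw [Fintype.sum_prod_type]
  simp only [Fintype.sum_bool, pt, if_true, Bool.false_eq_true, if_false, ind_not]
  simp [-Fintype.card_sum]

lemma ind_cases (b : Bool) : ind b = 0 ∨ ind b = 1 := by
  cases b <;> simp

/-- exactly one level carries the mass -/
lemma one_level {m : ℕ} (S : Fin m → ℝ) (h0 : ∀ i, S i = 0 ∨ 1 ≤ S i) (hs : ∑ i, S i = 1) :
    ∃ i0, S i0 = 1 ∧ ∀ i, i ≠ i0 → S i = 0 := by
  have hnn : ∀ i, 0 ≤ S i := fun i => by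
    rcases h0 i with h | h <;> linarith
  have : ∃ i0, S i0 ≠ 0 := by
    by_contra hcon
    push Not at hcon
    simp [hcon] at hs
  obtain ⟨i0, hi0⟩ := this
  have h1 : 1 ≤ S i0 := (h0 i0).resolve_left hi0
  have h2 : S i0 + ∑ i ∈ univ.erase i0, S i = 1 := by
    rw [Finset.add_sum_erase _ _ (mem_univ i0), hs]
  have h3 : 0 ≤ ∑ i ∈ univ.erase i0, S i := Finset.sum_nonneg fun i _ => hnn i
  have h4 : ∑ i ∈ univ.erase i0, S i = 0 := by linarith
  refine ⟨i0, by linarith, fun i hi => ?_⟩
  exact (Finset.sum_eq_zero_iff_of_nonneg (fun i _ => hnn i)).1 h4 i (by simp [hi])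

lemma levels_vanish {k : ℕ} (μ : Pt k → ℝ) (hs : ∑ c, μ c = 1)
    (h01 : ∀ r, ∑ c ∈ row r, μ c = 0 ∨ ∑ c ∈ row r, μ c = 1) :
    ∃ c0 : Pt k, ∀ i e1 e2, μ (i, true, e1) + μ (i, false, e2) =
      (if (i, true, e1) = c0 then 1 else 0) + (if (i, false, e2) = c0 then 1 else 0) := by
  have hB : ∀ i e1 e2, μ (i, true, e1) + μ (i, false, e2) = 0 ∨
      μ (i, true, e1) + μ (i, false, e2) = 1 := fun i e1 e2 => by
    rw [← sum_row_inl]; exact h01 _
  let S : Fin (k + 2) → ℝ := fun i =>
    μ (i, true, true) + μ (i, false, true) + (μ (i, true, false) + μ (i, false, false))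
  have hS : ∑ i, S i = 1 := by
    rw [← hs, Fintype.sum_prod_type]
    refine Finset.sum_congr rfl fun i _ => ?_
    rw [Fintype.sum_prod_type]
    simp only [Fintype.sum_bool, S]
    ring
  obtain ⟨i0, hi0, hi1⟩ := one_level S (fun i => by
    simp only [S]
    rcases hB i true true with h1 | h1 <;> rcases hB i false false with h2 | h2 <;>
      rw [h1, h2] <;> norm_num) hS
  have hoff : ∀ i, i ≠ i0 → ∀ e1 e2, μ (i, true, e1) + μ (i, false, e2) = 0 := by
    intro i hi e1 e2
    have h0 := hi1 i hi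
    simp only [S] at h0
    have a1 := hB i true true
    have a2 := hB i false false
    have a3 := hB i true false
    have a4 := hB i false true
    cases e1 <;> cases e2 <;> rcases a1 with a1 | a1 <;> rcases a2 with a2 | a2 <;>
      rcases a3 with a3 | a3 <;> rcases a4 with a4 | a4 <;> linarith
  simp only [S] at hi0
  have a1 := hB i0 true true
  have a2 := hB i0 false false
  have a3 := hB i0 true false
  have a4 := hB i0 false true
  have fin : ∀ s0 e0 : Bool, (∀ e1 e2, μ (i0, true, e1) + μ (i0, false, e2) =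
      (if (true, e1) = (s0, e0) then 1 else 0) + (if (false, e2) = (s0, e0) then 1 else 0)) →
      ∃ c0 : Pt k, ∀ i e1 e2, μ (i, true, e1) + μ (i, false, e2) =
      (if (i, true, e1) = c0 then 1 else 0) + (if (i, false, e2) = c0 then 1 else 0) := by
    intro s0 e0 hh
    refine ⟨(i0, s0, e0), fun i e1 e2 => ?_⟩
    by_cases hi : i = i0
    · subst hi
      rw [hh e1 e2]
      simp
    · rw [hoff i hi]
      simp [hi]
  rcases a1 with a1 | a1 <;> rcases a3 with a3 | a3
  · refine fin true false fun e1 e2 => ?_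
    cases e1 <;> cases e2 <;> simp <;> linarith
  · refine fin false false fun e1 e2 => ?_
    cases e1 <;> cases e2 <;> simp <;> linarith
  · refine fin false true fun e1 e2 => ?_
    cases e1 <;> cases e2 <;> simp <;> linarith
  · refine fin true true fun e1 e2 => ?_
    cases e1 <;> cases e2 <;> simp <;> linarith

lemma rows_vanish {k : ℕ} (μ : Pt k → ℝ) (hs : ∑ c, μ c = 1)
    (h01 : ∀ r, ∑ c ∈ row r, μ c = 0 ∨ ∑ c ∈ row r, μ c = 1) :
    ∃ c0 : Pt k, ∀ r, ∑ c ∈ row r, μ c = ind (decide (c0 ∈ row r)) := by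
  obtain ⟨c0, hc0⟩ := levels_vanish μ hs h01
  refine ⟨c0, ?_⟩
  let δ : Pt k → ℝ := fun c => if c = c0 then 1 else 0
  let μ' : Pt k → ℝ := fun c => μ c - δ c
  have hδ : ∀ r, ∑ c ∈ row r, δ c = ind (decide (c0 ∈ row r)) := by
    intro r
    simp only [δ, Finset.sum_ite_eq', ind]
    simp
  have hlev : ∀ i e1 e2, μ' (i, true, e1) + μ' (i, false, e2) = 0 := by
    intro i e1 e2
    have := hc0 i e1 e2
    simp only [μ', δ]
    linarith
  have hT : ∀ i e, μ' (i, true, e) = μ' (i, true, true) := by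
    intro i e
    linarith [hlev i e true, hlev i true true]
  have hF : ∀ i e, μ' (i, false, e) = - μ' (i, true, true) := by
    intro i e
    linarith [hlev i true e]
  have hdiff : ∀ r, ∑ c ∈ row r, μ' c = ∑ c ∈ row r, μ c - ind (decide (c0 ∈ row r)) := by
    intro r
    simp only [μ', Finset.sum_sub_distrib, hδ]
  have hlink : ∀ i : Fin k,
      μ' (l0 i, true, true) + μ' (l1 i, true, true) - μ' (l2 i, true, true) = 0 := by
    intro i
    have hn : ∀ s, c0 ∉ row (.inr (i, s, !c0.2.2)) := by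
      intro s hmem
      obtain ⟨i0, s0, e0⟩ := c0
      simp only [row, Finset.mem_insert, Finset.mem_singleton, Prod.mk.injEq] at hmem
      cases e0 <;> simp at hmem
    have b1 := hdiff (.inr (i, true, !c0.2.2))
    have b2 := hdiff (.inr (i, false, !c0.2.2))
    have c1 := h01 (.inr (i, true, !c0.2.2))
    have c2 := h01 (.inr (i, false, !c0.2.2))
    rw [sum_row_inr] at b1 b2
    simp only [hn, decide_false, ind_false, sub_zero, Bool.not_true, Bool.not_false] at b1 b2
    rw [hT (l0 i), hT (l1 i), hF (l2 i)] at b1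
    rw [hF (l0 i), hF (l1 i), hT (l2 i)] at b2
    rcases c1 with c1 | c1 <;> rcases c2 with c2 | c2 <;> linarith
  intro r
  have : ∑ c ∈ row r, μ' c = 0 := by
    rcases r with ⟨i, e1, e2⟩ | ⟨i, s, e⟩
    · rw [sum_row_inl]; exact hlev i e1 e2
    · rw [sum_row_inr]
      have := hlink i
      cases s
      · rw [hF (l0 i), hF (l1 i), Bool.not_false, hT (l2 i)]
        linarith
      · rw [hT (l0 i), hT (l1 i), Bool.not_true, hF (l2 i)]
        linarith
  linarith [hdiff r]

lemma pt_hull {k : ℕ} (μ : Pt k → ℝ) (x : Row k × Bool → Bool) (hs : ∑ c, μ c = 1)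
    (hx : ∀ p, ind (x p) = ∑ c, μ c * ind (pt c p)) : ∃ c, x = pt c := by
  obtain ⟨c0, hc0⟩ := rows_vanish μ hs (fun r => by
    rw [← sum_pt_true, ← hx]; exact ind_cases _)
  refine ⟨c0, funext fun p => ind_inj ?_⟩
  obtain ⟨r, b⟩ := p
  cases b
  · rw [hx, sum_pt_false, hs, hc0]
    simp [pt, ind_not]
  · rw [hx, sum_pt_true, hc0]
    simp [pt]

lemma fib_growth (k : ℕ) (m : ℕ → ℕ) (hm : ∀ i, i < k → m (i + 2) = m i + m (i + 1))
    (h0 : 1 ≤ m 0 + m 1) : ∀ i, i ≤ k → Nat.fib (i + 1) ≤ m i + m (i + 1) := by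
  intro i
  induction i using Nat.strong_induction_on with
  | _ i ih =>
    intro hi
    match i, ih, hi with
    | 0, _, _ => simpa using h0
    | 1, _, hi =>
      have := hm 0 (by omega)
      simp only [zero_add] at this
      show Nat.fib 2 ≤ m 1 + m 2
      rw [Nat.fib_two]
      omega
    | (i + 2), ih, hi =>
      have a1 := ih i (by omega) (by omega)
      have a2 := ih (i + 1) (by omega) (by omega)
      have a3 := hm i (by omega)
      have a4 := hm (i + 1) (by omega)
      have a5 : Nat.fib (i + 2 + 1) = Nat.fib (i + 1) + Nat.fib (i + 1 + 1) := Nat.fib_add_two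
      have a6 : i + 1 + 2 = i + 2 + 1 := by omega
      have a7 : i + 1 + 1 = i + 2 := by omega
      rw [a6, a7] at a4
      rw [a7] at a2 a5
      omega

lemma all_zero (k : ℕ) (m : ℕ → ℕ) (hm : ∀ i, i < k → m (i + 2) = m i + m (i + 1))
    (h0 : m 0 + m 1 = 0) : ∀ i, i ≤ k → m i + m (i + 1) = 0 := by
  intro i
  induction i with
  | zero => intro _; simpa using h0
  | succ i ih =>
    intro hi
    have a1 := ih (by omega)
    have a2 := hm i (by omega)
    have a7 : i + 1 + 1 = i + 2 := by omega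
    rw [a7]
    omega

lemma sum_count {k j : ℕ} (a : Fin j → Pt k) (g : Pt k → ℝ) :
    ∑ t, g (a t) = ∑ c, ((univ.filter fun t => a t = c).card : ℝ) * g c := by
  rw [← Finset.sum_fiberwise (s := univ) (g := a)]
  refine Finset.sum_congr rfl fun c _ => ?_
  rw [Finset.sum_congr rfl (g := fun _ => g c)
    (fun t ht => by rw [(Finset.mem_filter.1 ht).2])]
  simp

lemma pt_long {k : ℕ} (j : ℕ) (a b : Fin j → Pt k) (hj : 1 ≤ j)
    (ha : ∀ t, (a t).2.1 = true) (hb : ∀ t, (b t).2.1 = false)
    (hab : ∀ p, ∑ t, ind (pt (a t) p) = ∑ t, ind (pt (b t) p)) : Nat.fib (k + 1) < j := by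
  let A : Pt k → ℕ := fun c => (univ.filter fun t => a t = c).card
  let B : Pt k → ℕ := fun c => (univ.filter fun t => b t = c).card
  have hA0 : ∀ i e, A (i, false, e) = 0 := by
    intro i e
    simp only [A, Finset.card_eq_zero, Finset.filter_eq_empty_iff]
    intro t _ ht
    have := ha t
    rw [ht] at this
    simp at this
  have hB0 : ∀ i e, B (i, true, e) = 0 := by
    intro i e
    simp only [B, Finset.card_eq_zero, Finset.filter_eq_empty_iff]
    intro t _ ht
    have := hb t
    rw [ht] at this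
    simp at this
  have hrow : ∀ r, ∑ c ∈ row r, (A c : ℝ) = ∑ c ∈ row r, (B c : ℝ) := by
    intro r
    rw [← sum_pt_true, ← sum_pt_true]
    have := hab (r, true)
    rw [sum_count a (fun c => ind (pt c (r, true))),
      sum_count b (fun c => ind (pt c (r, true)))] at this
    exact this
  have hlev : ∀ i e1 e2, A (i, true, e1) = B (i, false, e2) := by
    intro i e1 e2
    have := hrow (.inl (i, e1, e2))
    rw [sum_row_inl (fun c => (A c : ℝ)), sum_row_inl (fun c => (B c : ℝ)), hA0, hB0] at this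
    simpa using this
  have hAe : ∀ i e, A (i, true, e) = A (i, true, true) := fun i e => by
    rw [hlev i e true, hlev i true true]
  have hlink : ∀ i : Fin k, A (l2 i, true, true) = A (l0 i, true, true) + A (l1 i, true, true) := by
    intro i
    have := hrow (.inr (i, true, true))
    rw [sum_row_inr (fun c => (A c : ℝ)), sum_row_inr (fun c => (B c : ℝ)), Bool.not_true,
      hA0, hB0, hB0, ← hlev (l2 i) true true] at this
    simp only [Nat.cast_zero, add_zero, zero_add] at this
    exact_mod_cast this.symm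
  let m : ℕ → ℕ := fun i => if h : i < k + 2 then A (⟨i, h⟩, true, true) else 0
  have hm : ∀ i, i < k → m (i + 2) = m i + m (i + 1) := by
    intro i hi
    have := hlink ⟨i, hi⟩
    simp only [m]
    rw [dif_pos (by omega), dif_pos (by omega), dif_pos (by omega)]
    exact this
  have hj' : j = ∑ i : Fin (k + 2), 2 * m i := by
    have h1 : ∑ c, A c = j := by
      simp only [A]
      rw [← Finset.card_eq_sum_card_fiberwise (fun t _ => mem_univ (a t))]
      simp
    rw [← h1, Fintype.sum_prod_type]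
    refine Finset.sum_congr rfl fun i _ => ?_
    rw [Fintype.sum_prod_type]
    simp only [Fintype.sum_bool, hA0, hAe i false, m, i.2, dif_pos]
    ring
  by_cases h0 : m 0 + m 1 = 0
  · exfalso
    have hz := all_zero k m hm h0
    have : ∑ i : Fin (k + 2), 2 * m i = 0 := by
      refine Finset.sum_eq_zero fun i _ => ?_
      by_cases hi : (i : ℕ) ≤ k
      · have := hz i hi
        omega
      · have h2 := hz k le_rfl
        have h3 : (i : ℕ) = k + 1 := by omega
        rw [h3]
        omega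
    omega
  · have hg := fib_growth k m hm (by omega) k le_rfl
    have hpos : 0 < Nat.fib (k + 1) := Nat.fib_pos.2 (by omega)
    have h2 : 2 * m k + 2 * m (k + 1) ≤ ∑ i : Fin (k + 2), 2 * m i := by
      rw [Fin.sum_univ_castSucc, Fin.sum_univ_castSucc]
      simp only [Fin.val_castSucc, Fin.val_last]
      omega
    omega

def wt {k : ℕ} (c : Pt k) : ℝ := (if c.2.1 then 1 else -1) * (Nat.fib (c.1 + 1) : ℝ)

lemma wt_sum (k : ℕ) : ∑ c : Pt k, wt c = 0 := by
  rw [Fintype.sum_prod_type]
  refine Finset.sum_eq_zero fun i _ => ?_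
  rw [Fintype.sum_prod_type]
  simp [wt]

lemma wt_row {k : ℕ} (r : Row k) : ∑ c ∈ row r, wt c = 0 := by
  rcases r with ⟨i, e1, e2⟩ | ⟨i, s, e⟩
  · rw [sum_row_inl]
    simp [wt]
  · rw [sum_row_inr]
    have : Nat.fib (i + 2 + 1) = Nat.fib (i + 1) + Nat.fib (i + 1 + 1) := Nat.fib_add_two
    cases s <;> simp [wt, l0, l1, l2, this] <;> ring

theorem exists_good (k : ℕ) :
    ∃ f : (Row k × Bool → Bool) → Bool, Good (Nat.fib (k + 1)) f := by
  refine abstract_good (C := Pt k) pt (fun c => c.2.1) _ (Nat.fib_pos.2 (by omega))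
    (Fintype.card (Row k) : ℝ) ?_ pt_sum pt_hull pt_long wt ?_ ?_ ?_ (wt_sum k) ?_
  · exact_mod_cast Fintype.card_ne_zero
  · intro c hc
    simp only [wt, hc, if_true]
    positivity
  · intro c hc
    simp [wt, hc]
  · exact ⟨(0, false, false), rfl, by simp [wt]⟩
  · rintro ⟨r, b⟩
    cases b
    · rw [sum_pt_false, wt_sum, wt_row, sub_zero]
    · rw [sum_pt_true, wt_row]

lemma card_crd (k : ℕ) : Fintype.card (Row k × Bool) = 16 * k + 16 := by
  simp only [Fintype.card_prod, Fintype.card_sum, Fintype.card_fin, Fintype.card_bool]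
  ring

/-- exponential lower bound, Fibonacci form -/
theorem exists_good_fin (n : ℕ) (hn : 16 ≤ n) :
    ∃ f : (Fin n → Bool) → Bool, Good (Nat.fib (n / 16)) f := by
  obtain ⟨f, hf⟩ := exists_good (n / 16 - 1)
  have hc : Fintype.card (Row (n / 16 - 1) × Bool) ≤ Fintype.card (Fin n) := by
    rw [card_crd, Fintype.card_fin]
    omega
  obtain ⟨e⟩ := Function.Embedding.nonempty_of_card_le hc
  have h1 : n / 16 - 1 + 1 = n / 16 := by omega
  rw [h1] at hf
  exact ⟨_, good_of_embedding e _ f hf⟩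

end Pool.Agent.MP_8a557e_co.H71
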