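import Mathlib

namespace Pool.Agent.MP_8a557e_co.H71

open Filter

lemma two_pow_le_fib (m : ℕ) : 2 ^ m ≤ Nat.fib (2 * m + 1) := by
  induction m with
  | zero => simp
  | succ m ih =>
    have h1 : Nat.fib (2 * m + 1 + 2) = Nat.fib (2 * m + 1) + Nat.fib (2 * m + 1 + 1) :=
      Nat.fib_add_two
    have h2 : Nat.fib (2 * m + 1) ≤ Nat.fib (2 * m + 1 + 1) := Nat.fib_le_fib_succ
    have h3 : 2 * (m + 1) + 1 = 2 * m + 1 + 2 := by ring
    rw [h3, h1, pow_succ]
    omega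

lemma exp_half_le : Real.exp (1 / 2) ≤ 2 := by
  have h1 := Real.add_one_le_exp (-(1 / 2))
  have h2 : Real.exp (1 / 2) * Real.exp (-(1 / 2)) = 1 := by
    rw [← Real.exp_add]; simp
  have h3 := Real.exp_pos (1 / 2)
  nlinarith

lemma poly_le_fib (p : Polynomial ℝ) :
    ∀ᶠ n : ℕ in atTop, p.eval (n : ℝ) ≤ (Nat.fib (n / 16) : ℝ) := by
  have h1 := Polynomial.tendsto_div_exp_atTop (p.comp (Polynomial.C 64 * Polynomial.X))
  have h2 : Tendsto (fun n : ℕ => (n : ℝ) / 64) atTop atTop :=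
    tendsto_natCast_atTop_atTop.atTop_div_const (by norm_num)
  have h3 := (h1.comp h2).eventually (gt_mem_nhds (show (0 : ℝ) < 1 / 4 by norm_num))
  filter_upwards [h3, eventually_ge_atTop 16] with n hn hn16
  simp only [Function.comp, Polynomial.eval_comp, Polynomial.eval_mul, Polynomial.eval_C,
    Polynomial.eval_X] at hn
  have h4 : (64 : ℝ) * ((n : ℝ) / 64) = n := by ring
  rw [h4, div_lt_iff₀ (Real.exp_pos _)] at hn
  set m := (n / 16 - 1) / 2 with hm
  have h5 : n ≤ 32 * (m + 2) := by omega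
  have h6 : 2 * m + 1 ≤ n / 16 := by omega
  have h7 : Real.exp ((n : ℝ) / 64) ≤ 4 * 2 ^ m := by
    calc Real.exp ((n : ℝ) / 64) ≤ Real.exp (((m + 2 : ℕ) : ℝ) * (1 / 2)) := by
          apply Real.exp_le_exp.2
          have : (n : ℝ) ≤ 32 * ((m + 2 : ℕ) : ℝ) := by exact_mod_cast h5
          linarith
      _ = Real.exp (1 / 2) ^ (m + 2) := Real.exp_nat_mul _ _
      _ ≤ 2 ^ (m + 2) := pow_le_pow_left₀ (Real.exp_pos _).le exp_half_le _
      _ = 4 * 2 ^ m := by ring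
  have h8 : (2 : ℝ) ^ m ≤ (Nat.fib (n / 16) : ℝ) := by
    exact_mod_cast (two_pow_le_fib m).trans (Nat.fib_mono h6)
  linarith

end Pool.Agent.MP_8a557e_co.H71
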